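import Mathlib
import Pool.Agent.H204Maz.Final

set_option autoImplicit false

namespace Pool.Agent.Results.MP_04172d_lc.EveryDirection

/-- A Mazurkiewicz (two-point) set: it meets every straight line `a x + b y = c`, `(a,b) ≠ 0`,
in exactly two points. -/
def IsMazurkiewicz (M : Set (ℝ × ℝ)) : Prop :=
  ∀ a b c : ℝ, (a ≠ 0 ∨ b ≠ 0) → (M ∩ {p : ℝ × ℝ | a * p.1 + b * p.2 = c}).ncard = 2

/-- The graph of a function. -/
def graph (h : ℝ → ℝ) : Set (ℝ × ℝ) := {p : ℝ × ℝ | p.2 = h p.1}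

/-- A Hamel function: its graph is a basis of the rational vector space `ℝ²`. -/
def IsHamelFunction (h : ℝ → ℝ) : Prop :=
  LinearIndepOn ℚ id (graph h) ∧ Submodule.span ℚ (graph h) = ⊤

/-- The rotation about the origin by the angle `θ`. -/
noncomputable def rotation (θ : ℝ) (p : ℝ × ℝ) : ℝ × ℝ :=
  (Real.cos θ * p.1 - Real.sin θ * p.2, Real.sin θ * p.1 + Real.cos θ * p.2)

/-- There is a Mazurkiewicz set `M` such that every rotation of `M` contains the graph of a
Hamel function. -/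
theorem result : ∃ M : Set (ℝ × ℝ), IsMazurkiewicz M ∧
    ∀ θ : ℝ, ∃ h : ℝ → ℝ, IsHamelFunction h ∧ graph h ⊆ rotation θ '' M := by
  obtain ⟨M, h1, h2⟩ := Pool.Agent.H204Maz.main
  refine ⟨M, ?_, ?_⟩
  · intro a b c hab
    exact h1 a b c (by tauto)
  · intro θ
    obtain ⟨f, g, hf, hg, h⟩ := h2 θ
    refine ⟨f, hf, ?_⟩
    have e : rotation θ '' M = Pool.Agent.H204Maz.rot θ '' M := rfl
    rw [e, h]
    exact Set.subset_union_left

end Pool.Agent.Results.MP_04172d_lc.EveryDirection
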